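import Pool.Agent.X153.Disc.Domain

set_option autoImplicit false

namespace Pool.Agent.X153.Disc

open Metric Complex

/-- the vectors of the frame -/
noncomputable abbrev e0 : E3 := EuclideanSpace.single 0 1
noncomputable abbrev e1 : E3 := EuclideanSpace.single 1 1

lemma sig_e0 : sig e0 = e0 := by
  ext i
  fin_cases i
  · simpa using sig_apply0 e0
  · simpa using sig_apply1 e0
  · simpa using sig_apply2 e0

lemma sig_e1 : sig e1 = e1 := by
  ext i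
  fin_cases i
  · simpa using sig_apply0 e1
  · simpa using sig_apply1 e1
  · simpa using sig_apply2 e1

lemma inner_e0_e1 : inner ℝ e0 e1 = 0 := by
  rw [PiLp.inner_apply, Fin.sum_univ_three]
  simp

/-- Upper bound for planar discs. -/
lemma planar_bound {f : ℂ → E3} (h : CH f Om)
    (h0 : ∀ z ∈ ball (0 : ℂ) 1, f z 2 = 0) (hf0 : f 0 = 0) {r : ℝ} (hr : 0 < r)
    (hx : fderiv ℝ f 0 (1 : ℂ) = r • e0) (hy : fderiv ℝ f 0 Complex.I = r • e1) :
    r ≤ 217 / 200 := by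
  obtain ⟨hd, hder⟩ := CH.holomorphic h h0 hr hx hy
  set F : ℂ → ℂ := fun z => ((f z 0 : ℝ) : ℂ) + I * ((f z 1 : ℝ) : ℂ) with hF
  have hzero : (0 : ℂ) ∈ ball (0 : ℂ) 1 := by simp
  have hF0 : F 0 = 0 := by simp [hF, hf0]
  set G : ℂ → ℂ := fun z => F z + 3 / 50 * F z ^ 5 with hG
  have hG0 : G 0 = 0 := by simp [hG, hF0]
  have hGd : DifferentiableOn ℂ G (ball (0 : ℂ) 1) := hd.add ((hd.pow 5).const_mul _)
  have hmaps : Set.MapsTo G (ball (0 : ℂ) 1) (closedBall (G 0) (217 / 200)) := by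
    intro z hz
    rw [hG0, mem_closedBall_zero_iff]
    have e : F z = ⟨f z 0, f z 1⟩ := by
      apply Complex.ext <;> simp [hF]
    have hm : f z 0 ^ 4 + f z 1 ^ 4 + (1 / 1000) * f z 2 ^ 2 - 1 < 0 := h.2.1 z hz
    rw [h0 z hz] at hm
    show ‖F z + 3 / 50 * F z ^ 5‖ ≤ _
    rw [e]
    exact section_bound (by linarith)
  have hs := Complex.norm_deriv_le_div_of_mapsTo_ball hGd hmaps one_pos
  have hFd : HasDerivAt F r 0 := by
    have h1 : DifferentiableAt ℂ F 0 := (hd 0 hzero).differentiableAt (isOpen_ball.mem_nhds hzero)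
    have := h1.hasDerivAt
    rwa [hder] at this
  have hGd0 : deriv G 0 = r := by
    have h2 := hFd.add ((hFd.pow 5).const_mul (3 / 50))
    have h3 : HasDerivAt G ((r : ℂ) + 3 / 50 * (((5 : ℕ) : ℂ) * F 0 ^ (5 - 1) * r)) 0 := h2
    rw [h3.deriv, hF0]
    simp
  rw [hGd0] at hs
  simpa [abs_of_pos hr] using hs

theorem main :
    ¬ (∀ n : ℕ, 3 ≤ n → ∀ Ω : Set (EuclideanSpace ℝ (Fin n)),
    IsOpen Ω → Bornology.IsBounded Ω → Convex ℝ Ω →
    (∃ U : Set (EuclideanSpace ℝ (Fin n)), ∃ ρ : EuclideanSpace ℝ (Fin n) → ℝ,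
        IsOpen U ∧ closure Ω ⊆ U ∧ ContDiffOn ℝ ((⊤ : ℕ∞) : WithTop ℕ∞) ρ U ∧
        Ω = {x | x ∈ U ∧ ρ x < 0} ∧ ∀ x ∈ frontier Ω, fderiv ℝ ρ x ≠ 0) →
    ∀ p ∈ Ω, ∀ u v : EuclideanSpace ℝ (Fin n),
      ‖u‖ = ‖v‖ → inner ℝ u v = 0 → u ≠ 0 →
      ∃ f : ℂ → EuclideanSpace ℝ (Fin n),
        (∃ r : ℝ, 0 < r ∧
          (ContDiffOn ℝ 2 f (Metric.ball (0 : ℂ) 1) ∧
            (∀ z ∈ Metric.ball (0 : ℂ) 1, f z ∈ Ω) ∧
            (∀ z ∈ Metric.ball (0 : ℂ) 1,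
              ‖fderiv ℝ f z (1 : ℂ)‖ = ‖fderiv ℝ f z Complex.I‖ ∧
              inner ℝ (fderiv ℝ f z (1 : ℂ)) (fderiv ℝ f z Complex.I) = 0) ∧
            (∀ z ∈ Metric.ball (0 : ℂ) 1,
              fderiv ℝ (fun w => fderiv ℝ f w (1 : ℂ)) z (1 : ℂ) +
                fderiv ℝ (fun w => fderiv ℝ f w Complex.I) z Complex.I = 0)) ∧
          f 0 = p ∧ fderiv ℝ f 0 (1 : ℂ) = r • u ∧ fderiv ℝ f 0 Complex.I = r • v ∧
          ∀ g : ℂ → EuclideanSpace ℝ (Fin n), ∀ s : ℝ, 0 < s →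
            (ContDiffOn ℝ 2 g (Metric.ball (0 : ℂ) 1) ∧
              (∀ z ∈ Metric.ball (0 : ℂ) 1, g z ∈ Ω) ∧
              (∀ z ∈ Metric.ball (0 : ℂ) 1,
                ‖fderiv ℝ g z (1 : ℂ)‖ = ‖fderiv ℝ g z Complex.I‖ ∧
                inner ℝ (fderiv ℝ g z (1 : ℂ)) (fderiv ℝ g z Complex.I) = 0) ∧
              (∀ z ∈ Metric.ball (0 : ℂ) 1,
                fderiv ℝ (fun w => fderiv ℝ g w (1 : ℂ)) z (1 : ℂ) +
                  fderiv ℝ (fun w => fderiv ℝ g w Complex.I) z Complex.I = 0)) →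
            g 0 = p → fderiv ℝ g 0 (1 : ℂ) = s • u → fderiv ℝ g 0 Complex.I = s • v →
            s ≤ r) ∧
        (∀ h : ℂ → EuclideanSpace ℝ (Fin n),
          (∃ r : ℝ, 0 < r ∧
            (ContDiffOn ℝ 2 h (Metric.ball (0 : ℂ) 1) ∧
              (∀ z ∈ Metric.ball (0 : ℂ) 1, h z ∈ Ω) ∧
              (∀ z ∈ Metric.ball (0 : ℂ) 1,
                ‖fderiv ℝ h z (1 : ℂ)‖ = ‖fderiv ℝ h z Complex.I‖ ∧
                inner ℝ (fderiv ℝ h z (1 : ℂ)) (fderiv ℝ h z Complex.I) = 0) ∧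
              (∀ z ∈ Metric.ball (0 : ℂ) 1,
                fderiv ℝ (fun w => fderiv ℝ h w (1 : ℂ)) z (1 : ℂ) +
                  fderiv ℝ (fun w => fderiv ℝ h w Complex.I) z Complex.I = 0)) ∧
            h 0 = p ∧ fderiv ℝ h 0 (1 : ℂ) = r • u ∧ fderiv ℝ h 0 Complex.I = r • v ∧
            ∀ g : ℂ → EuclideanSpace ℝ (Fin n), ∀ s : ℝ, 0 < s →
              (ContDiffOn ℝ 2 g (Metric.ball (0 : ℂ) 1) ∧
                (∀ z ∈ Metric.ball (0 : ℂ) 1, g z ∈ Ω) ∧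
                (∀ z ∈ Metric.ball (0 : ℂ) 1,
                  ‖fderiv ℝ g z (1 : ℂ)‖ = ‖fderiv ℝ g z Complex.I‖ ∧
                  inner ℝ (fderiv ℝ g z (1 : ℂ)) (fderiv ℝ g z Complex.I) = 0) ∧
                (∀ z ∈ Metric.ball (0 : ℂ) 1,
                  fderiv ℝ (fun w => fderiv ℝ g w (1 : ℂ)) z (1 : ℂ) +
                    fderiv ℝ (fun w => fderiv ℝ g w Complex.I) z Complex.I = 0)) →
              g 0 = p → fderiv ℝ g 0 (1 : ℂ) = s • u → fderiv ℝ g 0 Complex.I = s • v →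
              s ≤ r) →
          Set.EqOn h f (Metric.ball (0 : ℂ) 1)) ∧
        Set.InjOn f (Metric.ball (0 : ℂ) 1) ∧
        (∀ z ∈ Metric.ball (0 : ℂ) 1, fderiv ℝ f z (1 : ℂ) ≠ 0) ∧
        (∀ K : Set (EuclideanSpace ℝ (Fin n)), IsCompact K → K ⊆ Ω →
          IsCompact (Metric.ball (0 : ℂ) 1 ∩ f ⁻¹' K))) := by
  intro H
  obtain ⟨f, ⟨r, hr, hCH, hf0, hfx, hfy, hmax⟩, huniq, -, -, -⟩ :=
    H 3 le_rfl Om Om_isOpen Om_bounded Om_convex Om_smooth 0 zero_mem_Om e0 e1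
      (by simp) inner_e0_e1 (by
        intro h
        have := congrArg (fun x : E3 => x 0) h
        simp at this)
  have hCH' : CH f Om := hCH
  have hmir : CH (sig ∘ f) Om := hCH'.mirror Om_sig
  have hd : ∀ z v, fderiv ℝ (sig ∘ f) z v = sig (fderiv ℝ f z v) := by
    intro z v
    rw [LinearIsometryEquiv.comp_fderiv]
    rfl
  have heq : Set.EqOn (sig ∘ f) f (ball (0 : ℂ) 1) := by
    apply huniq
    refine ⟨r, hr, hmir, ?_, ?_, ?_, hmax⟩
    · show sig (f 0) = 0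
      rw [hf0, map_zero]
    · rw [hd, hfx, map_smul, sig_e0]
    · rw [hd, hfy, map_smul, sig_e1]
  have hplane : ∀ z ∈ ball (0 : ℂ) 1, f z 2 = 0 := by
    intro z hz
    have h1 := heq hz
    have h2 : sig (f z) 2 = f z 2 := congrArg (fun x : E3 => x 2) h1
    rw [sig_apply2] at h2
    linarith
  have hle := planar_bound hCH' hplane hf0 hr hfx hfy
  have hge : (109 / 100 : ℝ) ≤ r := by
    apply hmax (reMap (enn (109 / 100))) (109 / 100) (by norm_num)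
      (CH_reMap (enn_hasDerivAt _) (enn'_hasDerivAt _) (enn_null _) fun z hz => enn_mem hz)
    · ext i
      fin_cases i <;> simp [reMap, enn]
    · rw [reMap_fderiv (enn_hasDerivAt _)]
      ext i
      fin_cases i
      · simp [reMap, enn']
      · simp [reMap, enn']
      · simp [reMap, enn']
    · rw [reMap_fderiv (enn_hasDerivAt _)]
      ext i
      fin_cases i
      · simp [reMap, enn']
      · simp [reMap, enn']
      · simp [reMap, enn']
  linarith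

end Pool.Agent.X153.Disc
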