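import Mathlib

set_option autoImplicit false

namespace Pool.Agent.X153.Disc

open Metric Complex

abbrev E3 := EuclideanSpace ℝ (Fin 3)

/-- `f` is a conformal harmonic disc in `Ω`. -/
def CH (f : ℂ → E3) (Ω : Set E3) : Prop :=
  ContDiffOn ℝ 2 f (Metric.ball (0 : ℂ) 1) ∧
  (∀ z ∈ Metric.ball (0 : ℂ) 1, f z ∈ Ω) ∧
  (∀ z ∈ Metric.ball (0 : ℂ) 1,
    ‖fderiv ℝ f z (1 : ℂ)‖ = ‖fderiv ℝ f z Complex.I‖ ∧
    inner ℝ (fderiv ℝ f z (1 : ℂ)) (fderiv ℝ f z Complex.I) = 0) ∧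
  (∀ z ∈ Metric.ball (0 : ℂ) 1,
    fderiv ℝ (fun w => fderiv ℝ f w (1 : ℂ)) z (1 : ℂ) +
      fderiv ℝ (fun w => fderiv ℝ f w Complex.I) z Complex.I = 0)

/-- The reflection in the last coordinate. -/
noncomputable def sig : E3 ≃ₗᵢ[ℝ] E3 :=
  LinearIsometryEquiv.piLpCongrRight 2
    (fun i : Fin 3 => if i = 2 then LinearIsometryEquiv.neg ℝ (E := ℝ)
      else LinearIsometryEquiv.refl ℝ ℝ)

lemma sig_apply0 (x : E3) : sig x 0 = x 0 := by
  simp [sig]

lemma sig_apply1 (x : E3) : sig x 1 = x 1 := by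
  simp [sig]

lemma sig_apply2 (x : E3) : sig x 2 = - x 2 := by
  simp [sig]

lemma CH.mirror {f : ℂ → E3} {Ω : Set E3} (h : CH f Ω) (hΩ : ∀ x ∈ Ω, sig x ∈ Ω) :
    CH (sig ∘ f) Ω := by
  obtain ⟨h1, h2, h3, h4⟩ := h
  have hd : ∀ z v, fderiv ℝ (sig ∘ f) z v = sig (fderiv ℝ f z v) := by
    intro z v
    rw [LinearIsometryEquiv.comp_fderiv]
    rfl
  refine ⟨?_, fun z hz => hΩ _ (h2 z hz), fun z hz => ?_, fun z hz => ?_⟩
  · exact sig.contDiff.comp_contDiffOn h1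
  · rw [hd, hd]
    refine ⟨?_, ?_⟩
    · rw [LinearIsometryEquiv.norm_map, LinearIsometryEquiv.norm_map]
      exact (h3 z hz).1
    · rw [LinearIsometryEquiv.inner_map_map]
      exact (h3 z hz).2
  · have e1 : ∀ v : ℂ, (fun w => fderiv ℝ (sig ∘ f) w v) = sig ∘ (fun w => fderiv ℝ f w v) := by
      intro v
      ext1 w
      exact hd w v
    rw [e1, e1, LinearIsometryEquiv.comp_fderiv, LinearIsometryEquiv.comp_fderiv]
    have := h4 z hz
    show sig (fderiv ℝ (fun w => fderiv ℝ f w (1 : ℂ)) z (1 : ℂ)) +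
      sig (fderiv ℝ (fun w => fderiv ℝ f w Complex.I) z Complex.I) = 0
    rw [← map_add, this, map_zero]

/-- component derivative -/
lemma fderiv_comp_apply {f : ℂ → E3} {z : ℂ} (hf : DifferentiableAt ℝ f z) (i : Fin 3) (v : ℂ) :
    fderiv ℝ (fun w => f w i) z v = fderiv ℝ f z v i := by
  have h := (hasFDerivWithinAt_euclidean (t := Set.univ)).1 hf.hasFDerivAt.hasFDerivWithinAt i
  rw [hasFDerivWithinAt_univ] at h
  rw [h.fderiv]
  rfl

open InnerProductSpace in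
lemma CH.harmonic {f : ℂ → E3} {Ω : Set E3} (h : CH f Ω) (i : Fin 3) {z : ℂ}
    (hz : z ∈ ball (0 : ℂ) 1) : HarmonicAt (fun w => f w i) z := by
  obtain ⟨h1, h2, h3, h4⟩ := h
  have hci : ContDiffOn ℝ 2 (fun w => f w i) (ball (0 : ℂ) 1) := (contDiffOn_euclidean.1 h1) i
  refine ⟨(hci z hz).contDiffAt (isOpen_ball.mem_nhds hz), ?_⟩
  filter_upwards [isOpen_ball.mem_nhds hz] with w hw
  have hdiff : ∀ u ∈ ball (0 : ℂ) 1, DifferentiableAt ℝ f u := fun u hu =>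
    ((h1 u hu).contDiffAt (isOpen_ball.mem_nhds hu)).differentiableAt (by norm_num)
  have hcd : ContDiffAt ℝ 2 (fun w => f w i) w := (hci w hw).contDiffAt (isOpen_ball.mem_nhds hw)
  have hcf : ContDiffAt ℝ 2 f w := (h1 w hw).contDiffAt (isOpen_ball.mem_nhds hw)
  have hdd : DifferentiableAt ℝ (fderiv ℝ (fun w => f w i)) w :=
    (hcd.fderiv_right (m := 1) (by norm_num)).differentiableAt (by norm_num)
  have hdf : DifferentiableAt ℝ (fderiv ℝ f) w :=
    (hcf.fderiv_right (m := 1) (by norm_num)).differentiableAt (by norm_num)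
  have key : ∀ v : ℂ, fderiv ℝ (fderiv ℝ (fun w => f w i)) w v v =
      (fderiv ℝ (fun w => fderiv ℝ f w v) w v) i := by
    intro v
    have e1 : fderiv ℝ (fun u => fderiv ℝ (fun w => f w i) u v) w v =
        fderiv ℝ (fderiv ℝ (fun w => f w i)) w v v := by
      rw [fderiv_clm_apply hdd (by fun_prop)]
      simp
    rw [← e1]
    have e2 : (fun u => fderiv ℝ (fun w => f w i) u v) =ᶠ[nhds w]
        (fun u => fderiv ℝ f u v i) := by
      filter_upwards [isOpen_ball.mem_nhds hw] with u hu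
      exact fderiv_comp_apply (hdiff u hu) i v
    rw [e2.fderiv_eq]
    exact fderiv_comp_apply (f := fun u => fderiv ℝ f u v) (by fun_prop) i v
  rw [laplacian_eq_iteratedFDeriv_complexPlane]
  simp only [iteratedFDeriv_two_apply, Matrix.cons_val_zero, Matrix.cons_val_one,
    Pi.zero_apply, Matrix.cons_val_fin_one]
  rw [key 1, key I]
  have := h4 w hw
  have h5 := congrArg (fun x : E3 => x i) this
  simpa using h5

/-- A conformal harmonic disc lying in the plane `x₃ = 0` with derivative `r (e₀, e₁)` at `0` is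
holomorphic. -/
lemma CH.holomorphic {f : ℂ → E3} {Ω : Set E3} (h : CH f Ω)
    (h0 : ∀ z ∈ ball (0 : ℂ) 1, f z 2 = 0) {r : ℝ} (hr : 0 < r)
    (hx : fderiv ℝ f 0 (1 : ℂ) = r • EuclideanSpace.single 0 1)
    (hy : fderiv ℝ f 0 Complex.I = r • EuclideanSpace.single 1 1) :
    DifferentiableOn ℂ (fun z => ((f z 0 : ℝ) : ℂ) + I * ((f z 1 : ℝ) : ℂ)) (ball (0 : ℂ) 1) ∧
    deriv (fun z => ((f z 0 : ℝ) : ℂ) + I * ((f z 1 : ℝ) : ℂ)) 0 = r := by
  have hH := fun (i : Fin 3) (z : ℂ) (hz : z ∈ ball (0 : ℂ) 1) => CH.harmonic h i hz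
  obtain ⟨h1, h2, h3, h4⟩ := h
  have hdiff : ∀ u ∈ ball (0 : ℂ) 1, DifferentiableAt ℝ f u := fun u hu =>
    ((h1 u hu).contDiffAt (isOpen_ball.mem_nhds hu)).differentiableAt (by norm_num)
  have h2' : ∀ z ∈ ball (0 : ℂ) 1, ∀ v : ℂ, fderiv ℝ f z v 2 = 0 := by
    intro z hz v
    rw [← fderiv_comp_apply (hdiff z hz)]
    have : (fun w => f w 2) =ᶠ[nhds z] (fun _ => (0:ℝ)) := by
      filter_upwards [isOpen_ball.mem_nhds hz] with u hu using h0 u hu
    rw [this.fderiv_eq]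
    simp
  set P : ℂ → ℂ := fun z => fderiv ℝ (fun w => f w 0) z 1 - I * fderiv ℝ (fun w => f w 0) z I
    with hP
  set Q : ℂ → ℂ := fun z => fderiv ℝ (fun w => f w 1) z 1 - I * fderiv ℝ (fun w => f w 1) z I
    with hQ
  have hPa : AnalyticOnNhd ℂ P (ball (0 : ℂ) 1) := fun z hz =>
    HarmonicAt.analyticAt_complex_partial (hH 0 z hz)
  have hQa : AnalyticOnNhd ℂ Q (ball (0 : ℂ) 1) := fun z hz =>
    HarmonicAt.analyticAt_complex_partial (hH 1 z hz)
  have hA1 : AnalyticOnNhd ℂ (fun z => P z + I * Q z) (ball (0 : ℂ) 1) :=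
    hPa.add (analyticOnNhd_const.mul hQa)
  have hA2 : AnalyticOnNhd ℂ (fun z => P z - I * Q z) (ball (0 : ℂ) 1) :=
    hPa.sub (analyticOnNhd_const.mul hQa)
  have hprod : ∀ z ∈ ball (0 : ℂ) 1, (P z + I * Q z) * (P z - I * Q z) = 0 := by
    intro z hz
    obtain ⟨hn, hi⟩ := h3 z hz
    have z1 := h2' z hz 1
    have z2 := h2' z hz I
    simp only [hP, hQ, fderiv_comp_apply (hdiff z hz)]
    set X := fderiv ℝ f z (1 : ℂ)
    set Y := fderiv ℝ f z I
    have hn2 : X 0 ^ 2 + X 1 ^ 2 = Y 0 ^ 2 + Y 1 ^ 2 := by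
      have : ‖X‖ ^ 2 = ‖Y‖ ^ 2 := by rw [hn]
      rw [EuclideanSpace.norm_sq_eq, EuclideanSpace.norm_sq_eq, Fin.sum_univ_three,
        Fin.sum_univ_three, z1, z2] at this
      simpa using this
    have hi2 : X 0 * Y 0 + X 1 * Y 1 = 0 := by
      have := hi
      rw [PiLp.inner_apply, Fin.sum_univ_three, z1, z2] at this
      simp at this
      linarith
    have hn3 : ((X 0 : ℝ) : ℂ) ^ 2 + ((X 1 : ℝ) : ℂ) ^ 2 = ((Y 0 : ℝ) : ℂ) ^ 2 + ((Y 1 : ℝ) : ℂ) ^ 2 := by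
      have := congrArg (fun t : ℝ => (t : ℂ)) hn2
      push_cast at this
      exact this
    have hi3 : ((X 0 : ℝ) : ℂ) * ((Y 0 : ℝ) : ℂ) + ((X 1 : ℝ) : ℂ) * ((Y 1 : ℝ) : ℂ) = 0 := by
      have := congrArg (fun t : ℝ => (t : ℂ)) hi2
      push_cast at this
      exact this
    have hI : I ^ 2 = -1 := I_sq
    linear_combination (hn3) - 2 * I * hi3 +
      (((Y 0 : ℝ) : ℂ) ^ 2 + ((Y 1 : ℝ) : ℂ) ^ 2 - (((X 1 : ℝ) : ℂ) - I * ((Y 1 : ℝ) : ℂ)) ^ 2 ) * hI
  have hzero : (0 : ℂ) ∈ ball (0 : ℂ) 1 := by simp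
  have hor := AnalyticOnNhd.eq_zero_or_eq_zero_of_mul_eq_zero hA1 hA2 hprod
    (convex_ball (0 : ℂ) 1).isPreconnected
  have hP0 : P 0 = r := by
    simp only [hP, fderiv_comp_apply (hdiff 0 hzero), hx, hy]
    simp
  have hQ0 : Q 0 = - I * r := by
    simp only [hQ, fderiv_comp_apply (hdiff 0 hzero), hx, hy]
    simp
  have hPQ : ∀ z ∈ ball (0 : ℂ) 1, P z - I * Q z = 0 := by
    rcases hor with h' | h'
    · exfalso
      have := h' 0 hzero
      simp only [hP0, hQ0] at this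
      have h6 : (r : ℂ) + I * (-I * r) = 2 * r := by
        linear_combination (-(r : ℂ)) * I_sq
      rw [h6] at this
      have h7 : (r : ℂ) = 0 := by simpa using this
      exact hr.ne' (by exact_mod_cast h7)
    · exact fun z hz => h' z hz
  have hCR : ∀ z ∈ ball (0 : ℂ) 1, fderiv ℝ f z (1 : ℂ) 0 = fderiv ℝ f z I 1 ∧
      fderiv ℝ f z I 0 = - fderiv ℝ f z (1 : ℂ) 1 := by
    intro z hz
    have := hPQ z hz
    simp only [hP, hQ, fderiv_comp_apply (hdiff z hz)] at this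
    have h8 := congrArg Complex.re this
    have h9 := congrArg Complex.im this
    simp at h8 h9
    constructor <;> linarith
  have hFd : ∀ z ∈ ball (0 : ℂ) 1, HasFDerivAt (𝕜 := ℝ)
      (fun z => ((f z 0 : ℝ) : ℂ) + I * ((f z 1 : ℝ) : ℂ))
      (ofRealCLM.comp (fderiv ℝ (fun w => f w 0) z) +
        I • ofRealCLM.comp (fderiv ℝ (fun w => f w 1) z)) z := by
    intro z hz
    have d0 : DifferentiableAt ℝ (fun w => f w 0) z := (differentiableAt_euclidean.1 (hdiff z hz)) 0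
    have d1 : DifferentiableAt ℝ (fun w => f w 1) z := (differentiableAt_euclidean.1 (hdiff z hz)) 1
    have e0 := ofRealCLM.hasFDerivAt.comp z d0.hasFDerivAt
    have e1 := (ofRealCLM.hasFDerivAt.comp z d1.hasFDerivAt).const_smul I
    exact e0.add e1
  have hcomplex : ∀ z ∈ ball (0 : ℂ) 1, DifferentiableAt ℂ
      (fun z => ((f z 0 : ℝ) : ℂ) + I * ((f z 1 : ℝ) : ℂ)) z := by
    intro z hz
    rw [differentiableAt_complex_iff_differentiableAt_real]
    refine ⟨(hFd z hz).differentiableAt, ?_⟩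
    rw [(hFd z hz).fderiv]
    simp only [add_apply, ContinuousLinearMap.comp_apply, ofRealCLM_apply,
      smul_apply, smul_eq_mul, fderiv_comp_apply (hdiff z hz)]
    obtain ⟨c1, c2⟩ := hCR z hz
    rw [c1, c2]
    push_cast
    linear_combination (-((fderiv ℝ f z (1 : ℂ) 1 : ℝ) : ℂ)) * I_sq
  refine ⟨fun z hz => (hcomplex z hz).differentiableWithinAt, ?_⟩
  have h10 := (hcomplex 0 hzero)
  have h11 : deriv (fun z => ((f z 0 : ℝ) : ℂ) + I * ((f z 1 : ℝ) : ℂ)) 0 =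
      fderiv ℝ (fun z => ((f z 0 : ℝ) : ℂ) + I * ((f z 1 : ℝ) : ℂ)) 0 1 := by
    rw [h10.fderiv_restrictScalars ℝ]
    simp
  rw [h11, (hFd 0 hzero).fderiv]
  simp only [add_apply, ContinuousLinearMap.comp_apply, ofRealCLM_apply,
    smul_apply, smul_eq_mul, fderiv_comp_apply (hdiff 0 hzero), hx]
  simp

end Pool.Agent.X153.Disc
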