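import Pool.Agent.X153.Disc.Basic

set_option autoImplicit false

namespace Pool.Agent.X153.Disc

open Metric Complex

/-- defining function -/
noncomputable def rho (x : E3) : ℝ := x 0 ^ 4 + x 1 ^ 4 + (1 / 1000) * x 2 ^ 2 - 1

/-- The domain `{x₁⁴ + x₂⁴ + x₃² / 1000 < 1}`. -/
def Om : Set E3 := {x | rho x < 0}

lemma rho_contDiff : ContDiff ℝ ((⊤ : ℕ∞) : WithTop ℕ∞) rho := by
  unfold rho
  have h : ∀ i : Fin 3, ContDiff ℝ ((⊤ : ℕ∞) : WithTop ℕ∞) (fun x : E3 => x i) := fun i =>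
    (contDiff_euclidean.1 contDiff_id) i
  exact ((((h 0).pow 4).add ((h 1).pow 4)).add (contDiff_const.mul ((h 2).pow 2))).sub contDiff_const

lemma Om_isOpen : IsOpen Om := isOpen_lt rho_contDiff.continuous continuous_const

lemma sq_le_one_of_pow4 {a : ℝ} (h : a ^ 4 ≤ 1) : a ^ 2 ≤ 1 := by
  nlinarith [sq_nonneg (a ^ 2 - 1)]

lemma Om_bounded : Bornology.IsBounded Om := by
  refine (isBounded_closedBall (x := (0 : E3)) (r := 100)).subset ?_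
  intro x hx
  have hx' : x 0 ^ 4 + x 1 ^ 4 + (1 / 1000) * x 2 ^ 2 - 1 < 0 := hx
  have h0 : 0 ≤ x 0 ^ 4 := by positivity
  have h1 : 0 ≤ x 1 ^ 4 := by positivity
  have h2 : 0 ≤ x 2 ^ 2 := by positivity
  have g0 := sq_le_one_of_pow4 (a := x 0) (by linarith)
  have g1 := sq_le_one_of_pow4 (a := x 1) (by linarith)
  rw [mem_closedBall_zero_iff]
  have : ‖x‖ ^ 2 ≤ 100 ^ 2 := by
    rw [EuclideanSpace.norm_sq_eq, Fin.sum_univ_three]
    simp only [Real.norm_eq_abs, sq_abs]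
    linarith
  exact le_of_sq_le_sq this (by norm_num) |> fun h => h

lemma Om_convex : Convex ℝ Om := by
  intro x hx y hy a b ha hb hab
  have hx' : x 0 ^ 4 + x 1 ^ 4 + (1 / 1000) * x 2 ^ 2 - 1 < 0 := hx
  have hy' : y 0 ^ 4 + y 1 ^ 4 + (1 / 1000) * y 2 ^ 2 - 1 < 0 := hy
  show (a • x + b • y) 0 ^ 4 + (a • x + b • y) 1 ^ 4 + (1 / 1000) * (a • x + b • y) 2 ^ 2 - 1 < 0
  have c4 : ∀ s t : ℝ, (a * s + b * t) ^ 4 ≤ a * s ^ 4 + b * t ^ 4 := by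
    intro s t
    have := (Even.convexOn_pow (𝕜 := ℝ) (n := 4) ⟨2, rfl⟩).2 (Set.mem_univ s) (Set.mem_univ t) ha hb hab
    simpa using this
  have c2 : ∀ s t : ℝ, (a * s + b * t) ^ 2 ≤ a * s ^ 2 + b * t ^ 2 := by
    intro s t
    have := (Even.convexOn_pow (𝕜 := ℝ) (n := 2) ⟨1, rfl⟩).2 (Set.mem_univ s) (Set.mem_univ t) ha hb hab
    simpa using this
  have e : ∀ i : Fin 3, (a • x + b • y) i = a * x i + b * y i := fun i => by simp
  rw [e, e, e]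
  have k0 := c4 (x 0) (y 0)
  have k1 := c4 (x 1) (y 1)
  have k2 := c2 (x 2) (y 2)
  have hb' : b = 1 - a := by linarith
  rcases eq_or_lt_of_le ha with h | h
  · subst h
    have : b = 1 := by linarith
    subst this
    nlinarith
  · nlinarith [mul_lt_mul_of_pos_left hx' h, mul_le_mul_of_nonneg_left hy'.le hb]

lemma Om_smooth : ∃ U : Set E3, ∃ ρ : E3 → ℝ,
    IsOpen U ∧ closure Om ⊆ U ∧ ContDiffOn ℝ ((⊤ : ℕ∞) : WithTop ℕ∞) ρ U ∧
    Om = {x | x ∈ U ∧ ρ x < 0} ∧ ∀ x ∈ frontier Om, fderiv ℝ ρ x ≠ 0 := by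
  refine ⟨Set.univ, rho, isOpen_univ, Set.subset_univ _, rho_contDiff.contDiffOn, ?_, ?_⟩
  · ext x
    simp [Om]
  · intro x hx h0
    have hx1 : x ∉ Om := by
      rw [frontier, Om_isOpen.interior_eq] at hx
      exact hx.2
    have hx2 : 0 ≤ rho x := not_lt.1 hx1
    -- derivative in the direction `x`
    have hd : HasFDerivAt rho (fderiv ℝ rho x) x :=
      (rho_contDiff.differentiable (by simp)).differentiableAt.hasFDerivAt
    have hline : HasDerivAt (fun t : ℝ => rho (t • x)) (fderiv ℝ rho x x) 1 := by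
      have h1 : HasDerivAt (fun t : ℝ => t • x) x 1 := by
        simpa using (hasDerivAt_id (1:ℝ)).smul_const x
      have h2 : HasFDerivAt rho (fderiv ℝ rho x) ((1:ℝ) • x) := by rwa [one_smul]
      exact h2.comp_hasDerivAt (1:ℝ) h1
    have hline2 : HasDerivAt (fun t : ℝ => rho (t • x))
        (4 * x 0 ^ 4 + 4 * x 1 ^ 4 + 2 * ((1 / 1000) * x 2 ^ 2)) 1 := by
      have e : (fun t : ℝ => rho (t • x)) = fun t : ℝ => t ^ 4 * (x 0 ^ 4 + x 1 ^ 4) +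
          t ^ 2 * ((1 / 1000) * x 2 ^ 2) - 1 := by
        funext t
        simp [rho]
        ring
      rw [e]
      have := (((hasDerivAt_pow 4 (1:ℝ)).mul_const (x 0 ^ 4 + x 1 ^ 4)).add
        ((hasDerivAt_pow 2 (1:ℝ)).mul_const ((1 / 1000) * x 2 ^ 2))).sub_const 1
      refine this.congr_deriv ?_
      norm_num
      ring
    have h3 := hline.unique hline2
    rw [h0] at h3
    simp only [zero_apply] at h3
    have hx3 : 0 ≤ x 0 ^ 4 + x 1 ^ 4 + (1 / 1000) * x 2 ^ 2 - 1 := hx2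
    have h0 : 0 ≤ x 0 ^ 4 := by positivity
    have h1 : 0 ≤ x 1 ^ 4 := by positivity
    have h2 : 0 ≤ x 2 ^ 2 := by positivity
    linarith

lemma Om_sig : ∀ x ∈ Om, sig x ∈ Om := by
  intro x hx
  have hx' : x 0 ^ 4 + x 1 ^ 4 + (1 / 1000) * x 2 ^ 2 - 1 < 0 := hx
  show sig x 0 ^ 4 + sig x 1 ^ 4 + (1 / 1000) * sig x 2 ^ 2 - 1 < 0
  rw [sig_apply0, sig_apply1, sig_apply2]
  simpa using hx'

lemma zero_mem_Om : (0 : E3) ∈ Om := by
  show (0 : E3) 0 ^ 4 + (0 : E3) 1 ^ 4 + (1 / 1000) * (0 : E3) 2 ^ 2 - 1 < 0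
  simp

/-- real parts of three holomorphic functions -/
noncomputable def reMap (F : Fin 3 → ℂ → ℂ) (z : ℂ) : E3 := WithLp.toLp 2 fun i => (F i z).re

lemma reMap_hasFDerivAt {F : Fin 3 → ℂ → ℂ} {c : Fin 3 → ℂ} {z : ℂ}
    (h : ∀ i, HasDerivAt (F i) (c i) z) :
    DifferentiableAt ℝ (reMap F) z ∧
      ∀ v : ℂ, fderiv ℝ (reMap F) z v = WithLp.toLp 2 fun i => (c i * v).re := by
  have hi : ∀ i, HasFDerivAt (fun w => reMap F w i)
      (reCLM.comp ((c i) • (1 : ℂ →L[ℝ] ℂ))) z := by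
    intro i
    have h1 : HasFDerivAt (𝕜 := ℝ) (F i) ((c i) • (1 : ℂ →L[ℝ] ℂ)) z := by
      have := (h i).hasFDerivAt.restrictScalars ℝ
      refine this.congr_fderiv ?_
      ext v
      simp [mul_comm]
    exact reCLM.hasFDerivAt.comp z h1
  have hdiff : DifferentiableAt ℝ (reMap F) z :=
    differentiableAt_euclidean.2 fun i => (hi i).differentiableAt
  refine ⟨hdiff, fun v => ?_⟩
  ext i
  rw [← fderiv_comp_apply hdiff i v, (hi i).fderiv]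
  simp

lemma reMap_fderiv {F F' : Fin 3 → ℂ → ℂ} (h : ∀ i z, HasDerivAt (F i) (F' i z) z) (z v : ℂ) :
    fderiv ℝ (reMap F) z v = reMap (fun i w => F' i w * v) z :=
  (reMap_hasFDerivAt fun i => h i z).2 v

lemma CH_reMap {F F' F'' : Fin 3 → ℂ → ℂ} (h : ∀ i z, HasDerivAt (F i) (F' i z) z)
    (h' : ∀ i z, HasDerivAt (F' i) (F'' i z) z) (hnull : ∀ z, ∑ i, F' i z ^ 2 = 0) {Ω : Set E3}
    (hΩ : ∀ z ∈ ball (0 : ℂ) 1, reMap F z ∈ Ω) : CH (reMap F) Ω := by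
  refine ⟨?_, hΩ, fun z hz => ?_, fun z hz => ?_⟩
  · rw [contDiffOn_euclidean]
    intro i
    have h1 : Differentiable ℂ (F i) := fun z => (h i z).differentiableAt
    have h2 : ContDiff ℂ 2 (F i) := h1.contDiff
    have h3 : ContDiff ℝ 2 (F i) := h2.restrict_scalars ℝ
    exact (reCLM.contDiff.comp h3).contDiffOn
  · rw [reMap_fderiv h, reMap_fderiv h]
    have hn := hnull z
    rw [Fin.sum_univ_three] at hn
    have hr := congrArg Complex.re hn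
    have hi := congrArg Complex.im hn
    simp [pow_two] at hr hi
    refine ⟨?_, ?_⟩
    · have : ‖reMap (fun i w => F' i w * 1) z‖ ^ 2 = ‖reMap (fun i w => F' i w * I) z‖ ^ 2 := by
        rw [EuclideanSpace.norm_sq_eq, EuclideanSpace.norm_sq_eq, Fin.sum_univ_three,
          Fin.sum_univ_three]
        simp [reMap]
        nlinarith
      exact (pow_left_inj₀ (norm_nonneg _) (norm_nonneg _) (by norm_num)).1 this
    · rw [PiLp.inner_apply, Fin.sum_univ_three]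
      simp [reMap]
      nlinarith
  · have e : ∀ v : ℂ, (fun w => fderiv ℝ (reMap F) w v) = reMap (fun i w => F' i w * v) := by
      intro v
      ext1 w
      exact reMap_fderiv h w v
    rw [e, e, reMap_fderiv (F' := fun i w => F'' i w * 1) (fun i z => (h' i z).mul_const 1),
      reMap_fderiv (F' := fun i w => F'' i w * I) (fun i z => (h' i z).mul_const I)]
    ext i
    simp [reMap]

/-- The three holomorphic functions whose real parts give the disc. -/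
noncomputable def enn (s : ℂ) : Fin 3 → ℂ → ℂ :=
  ![fun z => s * (z - z ^ 3 / 12), fun z => -I * s * (z + z ^ 3 / 12), fun z => s / 2 * z ^ 2]

noncomputable def enn' (s : ℂ) : Fin 3 → ℂ → ℂ :=
  ![fun z => s * (1 - z ^ 2 / 4), fun z => -I * s * (1 + z ^ 2 / 4), fun z => s * z]

noncomputable def enn'' (s : ℂ) : Fin 3 → ℂ → ℂ :=
  ![fun z => s * (- z / 2), fun z => -I * s * (z / 2), fun _ => s]

lemma enn_hasDerivAt (s : ℂ) : ∀ i z, HasDerivAt (enn s i) (enn' s i z) z := by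
  intro i z
  fin_cases i
  · show HasDerivAt (fun z => s * (z - z ^ 3 / 12)) (s * (1 - z ^ 2 / 4)) z
    have := ((hasDerivAt_id z).sub ((hasDerivAt_pow 3 z).div_const 12)).const_mul s
    refine this.congr_deriv ?_
    push_cast
    ring
  · show HasDerivAt (fun z => -I * s * (z + z ^ 3 / 12)) (-I * s * (1 + z ^ 2 / 4)) z
    have := ((hasDerivAt_id z).add ((hasDerivAt_pow 3 z).div_const 12)).const_mul (-I * s)
    refine this.congr_deriv ?_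
    push_cast
    ring
  · show HasDerivAt (fun z => s / 2 * z ^ 2) (s * z) z
    have := (hasDerivAt_pow 2 z).const_mul (s / 2)
    refine this.congr_deriv ?_
    norm_num
    ring

lemma enn'_hasDerivAt (s : ℂ) : ∀ i z, HasDerivAt (enn' s i) (enn'' s i z) z := by
  intro i z
  fin_cases i
  · show HasDerivAt (fun z => s * (1 - z ^ 2 / 4)) (s * (- z / 2)) z
    have := ((hasDerivAt_const z (1:ℂ)).sub ((hasDerivAt_pow 2 z).div_const 4)).const_mul s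
    refine this.congr_deriv ?_
    push_cast
    ring
  · show HasDerivAt (fun z => -I * s * (1 + z ^ 2 / 4)) (-I * s * (z / 2)) z
    have := ((hasDerivAt_const z (1:ℂ)).add ((hasDerivAt_pow 2 z).div_const 4)).const_mul (-I * s)
    refine this.congr_deriv ?_
    push_cast
    ring
  · show HasDerivAt (fun z => s * z) s z
    simpa using (hasDerivAt_id z).const_mul s

lemma enn_null (s : ℂ) : ∀ z, ∑ i, enn' s i z ^ 2 = 0 := by
  intro z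
  rw [Fin.sum_univ_three]
  show (s * (1 - z ^ 2 / 4)) ^ 2 + (-I * s * (1 + z ^ 2 / 4)) ^ 2 + (s * z) ^ 2 = 0
  linear_combination (s * (1 + z ^ 2 / 4)) ^ 2 * I_sq

/-- key polynomial inequality -/
lemma poly_ineq {A B : ℝ} (hA : 0 ≤ A) (hB : 0 ≤ B) (hAB : A + B ≤ 1) :
    A ^ 2 * (12 - A + 3 * B) ^ 4 + B ^ 2 * (12 + 3 * A - B) ^ 4 ≤ 14641 := by
  rcases eq_or_lt_of_le (add_nonneg hA hB) with h0 | h0
  · have h1 : A = 0 := by linarith
    have h2 : B = 0 := by linarith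
    subst h1 h2
    norm_num
  set R := A + B with hR
  have hR1 : R ≤ 1 := hAB
  obtain ⟨a, ha⟩ : ∃ a, a = A / R := ⟨_, rfl⟩
  obtain ⟨b, hb⟩ : ∃ b, b = B / R := ⟨_, rfl⟩
  have ha0 : 0 ≤ a := by rw [ha]; positivity
  have hb0 : 0 ≤ b := by rw [hb]; positivity
  have hab : a + b = 1 := by rw [ha, hb, ← add_div, ← hR, div_self h0.ne']
  have hA' : A = R * a := by rw [ha]; field_simp
  have hB' : B = R * b := by rw [hb]; field_simp
  have key : ∀ k : ℝ, -3 ≤ k → k ≤ 1 → R * (12 - R * k) ^ 2 ≤ (12 - k) ^ 2 := by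
    intro k hk1 hk2
    have e : (12 - k) ^ 2 - R * (12 - R * k) ^ 2 =
        (1 - R) * (144 - 24 * k * (1 + R) + k ^ 2 * (1 + R + R ^ 2)) := by ring
    have h3 : 0 ≤ 144 - 24 * k * (1 + R) + k ^ 2 * (1 + R + R ^ 2) := by
      have h4 : k * (1 + R) ≤ 2 := by
        have : k * (1 + R) ≤ 1 * (1 + R) := mul_le_mul_of_nonneg_right hk2 (by linarith)
        linarith
      have h5 : 0 ≤ k ^ 2 * (1 + R + R ^ 2) := by positivity
      linarith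
    have h6 := mul_nonneg (sub_nonneg.2 hR1) h3
    linarith
  have k1 := key (a - 3 * b) (by linarith) (by linarith)
  have k2 := key (b - 3 * a) (by linarith) (by linarith)
  have e1 : A ^ 2 * (12 - A + 3 * B) ^ 4 = a ^ 2 * R ^ 2 * ((12 - R * (a - 3 * b)) ^ 2) ^ 2 := by
    rw [hA', hB']; ring
  have e2 : B ^ 2 * (12 + 3 * A - B) ^ 4 = b ^ 2 * R ^ 2 * ((12 - R * (b - 3 * a)) ^ 2) ^ 2 := by
    rw [hA', hB']; ring
  have f1 : a ^ 2 * R ^ 2 * ((12 - R * (a - 3 * b)) ^ 2) ^ 2 ≤ a ^ 2 * ((12 - (a - 3 * b)) ^ 2) ^ 2 := by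
    have : (R * (12 - R * (a - 3 * b)) ^ 2) ^ 2 ≤ ((12 - (a - 3 * b)) ^ 2) ^ 2 :=
      pow_le_pow_left₀ (by positivity) k1 2
    calc _ = a ^ 2 * (R * (12 - R * (a - 3 * b)) ^ 2) ^ 2 := by ring
      _ ≤ _ := mul_le_mul_of_nonneg_left this (by positivity)
  have f2 : b ^ 2 * R ^ 2 * ((12 - R * (b - 3 * a)) ^ 2) ^ 2 ≤ b ^ 2 * ((12 - (b - 3 * a)) ^ 2) ^ 2 := by
    have : (R * (12 - R * (b - 3 * a)) ^ 2) ^ 2 ≤ ((12 - (b - 3 * a)) ^ 2) ^ 2 :=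
      pow_le_pow_left₀ (by positivity) k2 2
    calc _ = b ^ 2 * (R * (12 - R * (b - 3 * a)) ^ 2) ^ 2 := by ring
      _ ≤ _ := mul_le_mul_of_nonneg_left this (by positivity)
  have hb1 : b = 1 - a := by linarith
  have g : a ^ 2 * ((12 - (a - 3 * b)) ^ 2) ^ 2 + b ^ 2 * ((12 - (b - 3 * a)) ^ 2) ^ 2 ≤ 14641 := by
    rw [hb1]
    have ht : (2 * a - 1) ^ 2 ≤ 1 := by
      have h9 : 0 ≤ a * (1 - a) := by rw [← hb1]; exact mul_nonneg ha0 hb0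
      linarith [show (2 * a - 1) ^ 2 = 1 - 4 * (a * (1 - a)) by ring]
    have e3 : a ^ 2 * ((12 - (a - 3 * (1 - a))) ^ 2) ^ 2 +
        (1 - a) ^ 2 * ((12 - ((1 - a) - 3 * a)) ^ 2) ^ 2 =
        14641 - 1 / 2 * ((1 - (2 * a - 1) ^ 2) *
          (16 * ((2 * a - 1) ^ 2) ^ 2 + 3256 * (2 * a - 1) ^ 2 + 721)) := by ring
    rw [e3]
    have : 0 ≤ (1 - (2 * a - 1) ^ 2) *
        (16 * ((2 * a - 1) ^ 2) ^ 2 + 3256 * (2 * a - 1) ^ 2 + 721) :=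
      mul_nonneg (by linarith) (by positivity)
    linarith
  linarith

/-- The disc lies in the domain. -/
lemma enn_mem {z : ℂ} (hz : z ∈ ball (0 : ℂ) 1) : reMap (enn (109 / 100)) z ∈ Om := by
  rw [mem_ball_zero_iff] at hz
  obtain ⟨a, b⟩ := z
  have hab : a ^ 2 + b ^ 2 ≤ 1 := by
    have h1 : ‖(⟨a, b⟩ : ℂ)‖ ^ 2 = a ^ 2 + b ^ 2 := by
      rw [← Complex.normSq_eq_norm_sq, Complex.normSq_mk]; ring
    rw [← h1]
    exact pow_le_one₀ (norm_nonneg _) hz.le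
  have e0 : reMap (enn (109 / 100)) ⟨a, b⟩ 0 = 109 / 100 * (a * (12 - a ^ 2 + 3 * b ^ 2) / 12) := by
    show (((109 / 100 : ℂ) * ((⟨a, b⟩ : ℂ) - (⟨a, b⟩ : ℂ) ^ 3 / 12))).re = _
    have : (109 / 100 : ℂ) * ((⟨a, b⟩ : ℂ) - (⟨a, b⟩ : ℂ) ^ 3 / 12) =
        ((109 / 100 : ℝ) : ℂ) * ((⟨a, b⟩ : ℂ) - ((1 / 12 : ℝ) : ℂ) * (⟨a, b⟩ : ℂ) ^ 3) := by
      push_cast; ring
    rw [this, Complex.re_ofReal_mul, Complex.sub_re, Complex.re_ofReal_mul]
    simp [pow_succ]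
    ring
  have e1 : reMap (enn (109 / 100)) ⟨a, b⟩ 1 = 109 / 100 * (b * (12 + 3 * a ^ 2 - b ^ 2) / 12) := by
    show ((-I * (109 / 100 : ℂ) * ((⟨a, b⟩ : ℂ) + (⟨a, b⟩ : ℂ) ^ 3 / 12))).re = _
    have : -I * (109 / 100 : ℂ) * ((⟨a, b⟩ : ℂ) + (⟨a, b⟩ : ℂ) ^ 3 / 12) =
        ((109 / 100 : ℝ) : ℂ) * (-I * ((⟨a, b⟩ : ℂ) + ((1 / 12 : ℝ) : ℂ) * (⟨a, b⟩ : ℂ) ^ 3)) := by
      push_cast; ring
    rw [this, Complex.re_ofReal_mul]
    simp [pow_succ]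
    ring
  have e2 : reMap (enn (109 / 100)) ⟨a, b⟩ 2 = 109 / 200 * (a ^ 2 - b ^ 2) := by
    show (((109 / 100 : ℂ) / 2 * (⟨a, b⟩ : ℂ) ^ 2)).re = _
    have : (109 / 100 : ℂ) / 2 * (⟨a, b⟩ : ℂ) ^ 2 =
        ((109 / 200 : ℝ) : ℂ) * (⟨a, b⟩ : ℂ) ^ 2 := by
      push_cast; ring
    rw [this, Complex.re_ofReal_mul]
    simp [pow_succ]
  show reMap (enn (109 / 100)) ⟨a, b⟩ 0 ^ 4 + reMap (enn (109 / 100)) ⟨a, b⟩ 1 ^ 4 +
    (1 / 1000) * reMap (enn (109 / 100)) ⟨a, b⟩ 2 ^ 2 - 1 < 0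
  rw [e0, e1, e2]
  have hp := poly_ineq (sq_nonneg a) (sq_nonneg b) hab
  have h4 : (a ^ 2 - b ^ 2) ^ 2 ≤ 1 := by nlinarith [sq_nonneg a, sq_nonneg b, mul_nonneg (sq_nonneg a) (sq_nonneg b)]
  have e3 : (109 / 100 * (a * (12 - a ^ 2 + 3 * b ^ 2) / 12)) ^ 4 +
      (109 / 100 * (b * (12 + 3 * a ^ 2 - b ^ 2) / 12)) ^ 4 =
      (109 / 1200) ^ 4 * ((a ^ 2) ^ 2 * (12 - a ^ 2 + 3 * b ^ 2) ^ 4 +
        (b ^ 2) ^ 2 * (12 + 3 * a ^ 2 - b ^ 2) ^ 4) := by ring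
  rw [e3]
  have : (109 / 1200 : ℝ) ^ 4 * ((a ^ 2) ^ 2 * (12 - a ^ 2 + 3 * b ^ 2) ^ 4 +
        (b ^ 2) ^ 2 * (12 + 3 * a ^ 2 - b ^ 2) ^ 4) ≤ (109 / 1200) ^ 4 * 14641 :=
    mul_le_mul_of_nonneg_left hp (by positivity)
  have h5 : (109 / 200 * (a ^ 2 - b ^ 2)) ^ 2 ≤ (109 / 200 : ℝ) ^ 2 := by
    have : (109 / 200 * (a ^ 2 - b ^ 2)) ^ 2 = (109 / 200 : ℝ) ^ 2 * (a ^ 2 - b ^ 2) ^ 2 := by ring
    rw [this]
    nlinarith
  have h6 : (109 / 1200 : ℝ) ^ 4 * 14641 + 1 / 1000 * (109 / 200 : ℝ) ^ 2 - 1 < 0 := by norm_num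
  linarith

/-- The planar section: the bound for `z + (3/50) z⁵`. -/
lemma section_bound {x y : ℝ} (h : x ^ 4 + y ^ 4 ≤ 1) :
    ‖(⟨x, y⟩ : ℂ) + 3 / 50 * (⟨x, y⟩ : ℂ) ^ 5‖ ≤ 217 / 200 := by
  set X := x ^ 2 with hX
  set Y := y ^ 2 with hY
  have hX0 : 0 ≤ X := sq_nonneg x
  have hY0 : 0 ≤ Y := sq_nonneg y
  have hXY : X ^ 2 + Y ^ 2 ≤ 1 := by rw [hX, hY]; nlinarith
  have hn : ‖(⟨x, y⟩ : ℂ) + 3 / 50 * (⟨x, y⟩ : ℂ) ^ 5‖ ^ 2 =
      (X + Y) * (1 + 3 / 25 * (X ^ 2 - 6 * X * Y + Y ^ 2) + 9 / 2500 * (X + Y) ^ 4) := by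
    have e : (⟨x, y⟩ : ℂ) + 3 / 50 * (⟨x, y⟩ : ℂ) ^ 5 =
        (⟨x, y⟩ : ℂ) + ((3 / 50 : ℝ) : ℂ) * (⟨x, y⟩ : ℂ) ^ 5 := by push_cast; ring
    rw [e, ← Complex.normSq_eq_norm_sq, Complex.normSq_apply, Complex.add_re, Complex.add_im,
      Complex.re_ofReal_mul, Complex.im_ofReal_mul]
    simp [pow_succ, hX, hY]
    ring
  have hb : (X + Y) * (1 + 3 / 25 * (X ^ 2 - 6 * X * Y + Y ^ 2) + 9 / 2500 * (X + Y) ^ 4) ≤
      (217 / 200) ^ 2 := by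
    set u := X + Y with hu
    have hu0 : 0 ≤ u := by positivity
    have hv : X ^ 2 - 6 * X * Y + Y ^ 2 = u ^ 2 - 8 * (X * Y) := by rw [hu]; ring
    have hv0 : 0 ≤ X * Y := mul_nonneg hX0 hY0
    have hv1 : (u ^ 2 - 1) / 2 ≤ X * Y := by rw [hu]; nlinarith
    rw [hv]
    rcases le_total u 1 with h1 | h1
    · have e1 : 1 + 3 / 25 * (u ^ 2 - 8 * (X * Y)) + 9 / 2500 * u ^ 4 ≤ 1 + 3 / 25 + 9 / 2500 := by
        have : u ^ 2 ≤ 1 := pow_le_one₀ hu0 h1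
        have : u ^ 4 ≤ 1 := pow_le_one₀ hu0 h1
        linarith
      calc _ ≤ u * (1 + 3 / 25 + 9 / 2500) := mul_le_mul_of_nonneg_left e1 hu0
        _ ≤ 1 * (1 + 3 / 25 + 9 / 2500) := by nlinarith
        _ ≤ _ := by norm_num
    · have hu2 : u ^ 2 ≤ 2 := by rw [hu]; nlinarith [sq_nonneg (X - Y)]
      have hu3 : u ≤ 3 / 2 := by nlinarith
      have e1 : 1 + 3 / 25 * (u ^ 2 - 8 * (X * Y)) + 9 / 2500 * u ^ 4 ≤
          37 / 25 - 9 / 25 * u ^ 2 + 9 / 2500 * u ^ 4 := by linarith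
      have e2 : u * (37 / 25 - 9 / 25 * u ^ 2 + 9 / 2500 * u ^ 4) ≤ (217 / 200) ^ 2 := by
        have h4 : u ^ 4 ≤ 2 * u ^ 2 := by nlinarith [sq_nonneg u]
        have h5 : u * (37 / 25 - 9 / 25 * u ^ 2 + 9 / 2500 * u ^ 4) ≤
            u * (37 / 25 - 9 / 25 * u ^ 2 + 9 / 2500 * (2 * u ^ 2)) := by
          apply mul_le_mul_of_nonneg_left _ hu0
          linarith
        refine h5.trans ?_
        -- u (1.48 - 0.3528 u²)
        have e3 : u * (37 / 25 - 9 / 25 * u ^ 2 + 9 / 2500 * (2 * u ^ 2)) =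
          37 / 25 * u - 441 / 1250 * u ^ 3 := by ring
        rw [e3]
        nlinarith [mul_nonneg hu0 (sq_nonneg (u - 59 / 50)), sq_nonneg (u - 59 / 50)]
      calc _ ≤ u * (37 / 25 - 9 / 25 * u ^ 2 + 9 / 2500 * u ^ 4) :=
            mul_le_mul_of_nonneg_left e1 hu0
        _ ≤ _ := e2
  have := hn.trans_le hb
  exact (abs_le_of_sq_le_sq' this (by norm_num)).2 |> fun h => h

end Pool.Agent.X153.Disc
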